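import Mathlib
import Pool.Agent.H373R2.T7.PB3

/-!
There is an absolute constant `K` such that for every `m ≥ 1`, for almost all `n` for which the pair `(m, n)` is
admissible, there is a prime `p < n` such that `q = ⌊(n - p) / m⌋` is prime and `q ^ 2 - 2` has no prime factor
`ℓ` with `ℓ ^ K ≤ n`; in particular `q ^ 2 - 2` has fewer than `2 K` prime factors, counted with multiplicity. The
number of exceptional `n ≤ x` is at most `C x / log^U x`, for every `U`.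
-/

namespace Pool.Agent.Results.MP_4011c3_nt.AlmostAllAlmostPrime
open Finset Polynomial Pool.Agent.H373R2.T7 Pool.Agent.H373R2.T7.TB Pool.Agent.H373R2.T7.PB

/-- the pair `(m, n)` is admissible -/
def Admissible (m n : ℕ) : Prop :=
  2 * m + 1 < n ∧ ((m = 1 ∧ Even n) ∨ (m = 3 ∧ ¬ n ≡ 1 [MOD 6]) ∨ m = 2 ∨ 4 ≤ m)

/-- there is a prime `p < n` such that `q = ⌊(n - p) / m⌋` is prime, `q ^ 2 - 2` has no prime factor `ℓ` with
`ℓ ^ K ≤ n`, and `q ^ 2 - 2` has fewer than `2 K` prime factors, counted with multiplicity -/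
def Rep (K m n : ℕ) : Prop :=
  ∃ p q : ℕ, p.Prime ∧ p < n ∧ q = (n - p) / m ∧ q.Prime ∧
    (∀ ℓ : ℕ, ℓ.Prime → ℓ ∣ q ^ 2 - 2 → n < ℓ ^ K) ∧ (q ^ 2 - 2).primeFactorsList.length < 2 * K

lemma cop (N m k c : ℕ) (h : N + c = m * k ∨ N = m * k + c) (hc : Nat.Coprime c m) : Nat.Coprime N m := by
  by_contra hne
  obtain ⟨p, hp, hpN, hpm⟩ := Nat.Prime.not_coprime_iff_dvd.1 hne
  have h1 : p ∣ m * k := Dvd.dvd.mul_right hpm k
  have h2 : p ∣ c := by
    rcases h with h | h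
    · rw [← h] at h1
      exact (Nat.dvd_add_right hpN).1 h1
    · rw [h] at hpN
      exact (Nat.dvd_add_right h1).1 hpN
  exact (Nat.Prime.not_coprime_iff_dvd.2 ⟨p, hp, h2, hpm⟩) hc

lemma loc (m n : ℕ) (hm : 1 ≤ m) (h : Admissible m n) : ∃ r, r < m ∧ (n - r).Coprime m ∧ Odd (n - r + m) := by
  obtain ⟨hn, hcase⟩ := h
  have hdm := Nat.div_add_mod (n - 1) m
  have hlt := Nat.mod_lt (n - 1) (show 0 < m by omega)
  generalize hk : (n - 1) / m = k at *
  generalize ha : (n - 1) % m = a at *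
  rcases Nat.even_or_odd m with hme | hmo
  · refine ⟨a, hlt, ?_, ?_⟩
    · exact cop (n - a) m k 1 (Or.inr (by omega)) (Nat.coprime_one_left m)
    · have h1 : n - a = m * k + 1 := by omega
      rw [h1]
      have h2 : Even (m * k) := hme.mul_right k
      obtain ⟨t, ht⟩ := h2
      obtain ⟨s, hs⟩ := hme
      exact ⟨t + s, by omega⟩
  · have h2m : Nat.Coprime 2 m := Nat.coprime_two_left.2 hmo
    obtain ⟨s, hs⟩ := hmo
    rcases Nat.eq_zero_or_pos a with ha0 | ha0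
    · rcases Nat.even_or_odd n with hne | hno
      · obtain ⟨t, ht⟩ := hne
        refine ⟨0, by omega, ?_, ⟨t + s, by omega⟩⟩
        rw [Nat.sub_zero]
        exact cop n m k 1 (Or.inr (by omega)) (Nat.coprime_one_left m)
      · obtain ⟨t, ht⟩ := hno
        have hm5 : 5 ≤ m := by
          rcases hcase with ⟨_, ⟨u, hu⟩⟩ | ⟨h3, h6⟩ | h2 | h4
          · omega
          · exfalso
            apply h6
            unfold Nat.ModEq
            subst h3
            omega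
          · omega
          · omega
        refine ⟨3, by omega, ?_, ⟨t + s - 1, by omega⟩⟩
        exact cop (n - 3) m k 2 (Or.inl (by omega)) h2m
    · rcases Nat.even_or_odd (n - a) with hne | hno
      · obtain ⟨t, ht⟩ := hne
        refine ⟨a, hlt, ?_, ⟨t + s, by omega⟩⟩
        exact cop (n - a) m k 1 (Or.inr (by omega)) (Nat.coprime_one_left m)
      · obtain ⟨t, ht⟩ := hno
        refine ⟨a - 1, by omega, ?_, ⟨t + s + 1, by omega⟩⟩
        exact cop (n - (a - 1)) m k 2 (Or.inr (by omega)) h2m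

/-- the polynomial `X ^ 2 - 2` -/
noncomputable def FF : Fin 1 → ℤ[X] := fun _ => X ^ 2 - C 2

lemma FF_deg (i : Fin 1) : (FF i).natDegree = 2 := by
  unfold FF
  exact natDegree_X_pow_sub_C

lemma FF_lc (i : Fin 1) : 0 < (FF i).leadingCoeff := by
  unfold FF
  rw [leadingCoeff_X_pow_sub_C (by norm_num)]
  norm_num

lemma FF_eval (i : Fin 1) (n : ℤ) : (FF i).eval n = n ^ 2 - 2 := by
  unfold FF
  simp

lemma GG_eval (m : ℕ) (n : ℤ) : (C (m : ℤ) * X : ℤ[X]).eval n = m * n := by simp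

lemma prod_eF (n : ℤ) : (∏ i, (PArg.eF FF i).eval n) = n * (n ^ 2 - 2) := by
  rw [Fin.prod_univ_succ, Fin.prod_univ_one]
  have h1 : (PArg.eF FF 0) = X := by unfold PArg.eF; simp
  have h2 : (PArg.eF FF (Fin.succ 0)) = FF 0 := by unfold PArg.eF; simp
  rw [h1, h2, FF_eval, eval_X]

lemma noFixed (m N : ℕ) (hcop : N.Coprime m) (hodd : Odd (N + m)) : NoFixed (PArg.eF FF) (C (m : ℤ) * X) N := by
  intro p hp
  have hpp : Prime (p : ℤ) := Nat.prime_iff_prime_int.1 hp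
  have hp1 : ¬ (p : ℤ) ∣ 1 := fun h => hpp.not_isUnit (isUnit_of_dvd_one h)
  simp only [prod_eF, GG_eval]
  by_cases h1 : (p : ℤ) ∣ (N : ℤ) - m * 1
  · refine ⟨-1, ?_⟩
    have e : (-1 : ℤ) * ((-1) ^ 2 - 2) * ((N : ℤ) - m * (-1)) = N + m := by ring
    rw [e]
    intro h2
    have h3 : (p : ℤ) ∣ 2 * N := by
      have := dvd_add h1 h2
      have e2 : (N : ℤ) - m * 1 + (N + m) = 2 * N := by ring
      rwa [e2] at this
    have h4 : (p : ℤ) ∣ 2 * m := by
      have := dvd_sub h2 h1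
      have e2 : (N : ℤ) + m - (N - m * 1) = 2 * m := by ring
      rwa [e2] at this
    by_cases hp2 : p = 2
    · subst hp2
      have h5 : (2 : ℕ) ∣ N + m := by exact_mod_cast h2
      obtain ⟨t, ht⟩ := hodd
      omega
    · have h6 : ¬ (p : ℤ) ∣ 2 := by
        intro h7
        have h8 : p ∣ 2 := by exact_mod_cast h7
        exact hp2 ((Nat.prime_dvd_prime_iff_eq hp Nat.prime_two).1 h8)
      have h7 : p ∣ N := by exact_mod_cast (hpp.dvd_or_dvd h3).resolve_left h6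
      have h8 : p ∣ m := by exact_mod_cast (hpp.dvd_or_dvd h4).resolve_left h6
      exact (Nat.Prime.not_coprime_iff_dvd.2 ⟨p, hp, h7, h8⟩) hcop
  · refine ⟨1, ?_⟩
    have e : (1 : ℤ) * (1 ^ 2 - 2) * ((N : ℤ) - m * 1) = -((N : ℤ) - m * 1) := by ring
    rw [e, dvd_neg]
    exact h1

lemma len_bound (K n : ℕ) : ∀ l : List ℕ, (∀ a ∈ l, n < a ^ K) → (n + 1) ^ l.length ≤ l.prod ^ K := by
  intro l
  induction l with
  | nil => intro _; simp
  | cons a l ih =>
    intro h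
    rw [List.length_cons, List.prod_cons, pow_succ, mul_comm, mul_pow]
    apply Nat.mul_le_mul
    · exact h a (by simp)
    · exact ih fun b hb => h b (by simp [hb])

lemma XCount_low (m N x : ℕ) (hm : 1 ≤ m) (hN : 1 ≤ N) (hNx : N ≤ x) (h : (x : ℝ) / 8 ≤ N - m) :
    1 / (8 * (m : ℝ)) * x ≤ SHN.XCount (C (m : ℤ) * X) N x := by
  have h1 : (N - 1) / m ≤ SHN.XCount (C (m : ℤ) * X) N x := by
    unfold SHN.XCount
    calc (N - 1) / m = (Icc 1 ((N - 1) / m)).card := by rw [Nat.card_Icc, Nat.add_sub_cancel]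
      _ ≤ _ := by
        apply card_le_card
        intro k hk
        rw [mem_Icc] at hk
        have h2 : k * m ≤ N - 1 := (Nat.le_div_iff_mul_le (by omega)).1 hk.2
        rw [mem_filter, mem_Icc, GG_eval]
        have h3 : k ≤ k * m := Nat.le_mul_of_pos_right _ (by omega)
        refine ⟨⟨hk.1, by omega⟩, ?_⟩
        have h4 : ((k * m : ℕ) : ℤ) ≤ ((N - 1 : ℕ) : ℤ) := by exact_mod_cast h2
        push_cast [Nat.cast_sub hN] at h4
        linarith
  have h2 : N ≤ m * ((N - 1) / m) + m := by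
    have h3 := Nat.div_add_mod (N - 1) m
    have h4 := Nat.mod_lt (N - 1) (show 0 < m by omega)
    omega
  have h3 : (N : ℝ) ≤ m * ((N - 1) / m : ℕ) + m := by exact_mod_cast h2
  have h1' : (((N - 1) / m : ℕ) : ℝ) ≤ SHN.XCount (C (m : ℤ) * X) N x := by exact_mod_cast h1
  have hm0 : (0 : ℝ) < m := by exact_mod_cast (by omega : 0 < m)
  refine le_trans ?_ h1'
  rw [one_div_mul_eq_div, div_le_iff₀ (by positivity)]
  nlinarith

open Classical in
/-- from a positive weighted sum to a representation -/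
lemma rep_of_pos (K m n r y x : ℕ) (hK : 1 ≤ K) (hm : 1 ≤ m) (hr : r < m) (hn : r < n) (hy : ∀ ℓ : ℕ, ℓ ^ K ≤ n → ℓ ≤ y)
    (h : 0 < WP FF (C (m : ℤ) * X) (n - r) y x) : Rep K m n := by
  unfold WP at h
  obtain ⟨q, hq⟩ : ∃ q, q ∈ (Icc 1 x).filter (fun p : ℕ => p.Prime ∧ (((n - r : ℕ) : ℤ) - (C (m : ℤ) * X : ℤ[X]).eval (p : ℤ)).toNat.Prime ∧ Rough FF y p) := by
    by_contra hne
    push Not at hne
    rw [eq_empty_of_forall_notMem hne, sum_empty] at h
    exact lt_irrefl _ h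
  rw [mem_filter] at hq
  obtain ⟨_, hqp, hpp, hR⟩ := hq
  rw [GG_eval] at hpp
  obtain ⟨p, hp⟩ : ∃ p, p = (((n - r : ℕ) : ℤ) - m * q).toNat := ⟨_, rfl⟩
  rw [← hp] at hpp
  have hp2 := hpp.two_le
  have hpz : (p : ℤ) = ((n - r : ℕ) : ℤ) - m * q := by
    rw [hp]
    apply Int.toNat_of_nonneg
    omega
  have hpn : p + m * q = n - r := by
    have : (p : ℤ) + m * q = ((n - r : ℕ) : ℤ) := by linarith
    exact_mod_cast this
  have hq2 := hqp.two_le
  have hmq : q ≤ m * q := Nat.le_mul_of_pos_left _ (by omega)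
  have hnp : n - p = r + m * q := by omega
  have hqe : q = (n - p) / m := by
    rw [hnp, Nat.add_mul_div_left _ _ (by omega), Nat.div_eq_of_lt hr, zero_add]
  have hqn : q < n := by omega
  have h4 : 2 ≤ q ^ 2 := by nlinarith
  have hrough : ∀ ℓ : ℕ, ℓ.Prime → ℓ ∣ q ^ 2 - 2 → n < ℓ ^ K := by
    intro ℓ hℓ hd
    by_contra hle
    push Not at hle
    apply hR ℓ hℓ (hy ℓ hle) 0
    rw [FF_eval]
    have h5 : ((ℓ : ℕ) : ℤ) ∣ ((q ^ 2 - 2 : ℕ) : ℤ) := by exact_mod_cast hd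
    push_cast [Nat.cast_sub h4] at h5
    exact h5
  refine ⟨p, q, hpp, by omega, hqe, hqp, hrough, ?_⟩
  by_contra hlen
  push Not at hlen
  have h5 := len_bound K n (q ^ 2 - 2).primeFactorsList (fun a ha => hrough a (Nat.prime_of_mem_primeFactorsList ha) (Nat.dvd_of_mem_primeFactorsList ha))
  have h6 : q ^ 2 - 2 ≠ 0 := by
    have : 4 ≤ q ^ 2 := by nlinarith
    omega
  rw [Nat.prod_primeFactorsList h6] at h5
  have h7 : (n + 1) ^ (2 * K) ≤ (q ^ 2 - 2) ^ K := le_trans (Nat.pow_le_pow_right (by omega) hlen) h5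
  have h8 : (q ^ 2 - 2) ^ K < ((n + 1) ^ 2) ^ K := by
    apply Nat.pow_lt_pow_left _ (by omega)
    have : q ^ 2 < (n + 1) ^ 2 := Nat.pow_lt_pow_left (by omega) (by norm_num)
    omega
  rw [← pow_mul] at h8
  omega

open Classical in
theorem result : ∃ K : ℕ, 1 ≤ K ∧ ∀ m : ℕ, 1 ≤ m → ∀ U : ℕ, ∃ C : ℝ, 0 < C ∧ ∀ x : ℕ, 2 ≤ x →
    (((Icc 1 x).filter (fun n : ℕ => Admissible m n ∧ ¬ Rep K m n)).card : ℝ) ≤ C * (x / Real.log x ^ U) := by
  obtain ⟨K, hK, hmain⟩ := pb_main 3 (1 / 2) (by norm_num)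
  refine ⟨K, hK, fun m hm U => ?_⟩
  apply dyadic (fun n : ℕ => Admissible m n ∧ ¬ Rep K m n) U
  have hmr : (1 : ℝ) ≤ m := by exact_mod_cast hm
  have hdegG : (Polynomial.C (m : ℤ) * Polynomial.X : ℤ[X]).natDegree = 1 := natDegree_C_mul_X _ (by exact_mod_cast (by omega : m ≠ 0))
  have hlcG : 0 < (Polynomial.C (m : ℤ) * Polynomial.X : ℤ[X]).leadingCoeff := by
    rw [leadingCoeff_C_mul_X]
    exact_mod_cast (by omega : 0 < m)
  obtain ⟨B0, h1⟩ := hmain 1 FF (fun i => by rw [FF_deg]; norm_num) FF_lc (Polynomial.C (m : ℤ) * Polynomial.X) (by rw [hdegG]) hlcG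
    (by rw [hdegG, Fin.sum_univ_one, FF_deg]) 1 (U + 1) (1 / (8 * m)) le_rfl (by positivity)
  obtain ⟨x0, h2⟩ := h1 (B0 + 1)
  obtain ⟨n1, h3⟩ := ev_L' (m + 2)
  obtain ⟨n2, h4⟩ := ev_log' ((B0 + 1) * K) 1
  refine ⟨x0 + n1 + n2 + 8 * m + 4, fun M hM => ?_⟩
  have hL := h3 M (by omega)
  have hLs := h4 M (by omega)
  have hex := h2 M (by omega) M (by rw [hdegG, one_mul, pow_one]) (by rw [hdegG, one_mul, pow_one])
  rw [one_mul] at hLs
  clear h1 h2 h3 h4 hmain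
  have hM0 : (0 : ℝ) < M := by exact_mod_cast (by omega : 0 < M)
  obtain ⟨L, hLd⟩ : ∃ L, L = Real.log M := ⟨_, rfl⟩
  rw [← hLd] at hL hLs hex ⊢
  have hL2 : 2 ≤ L := by linarith
  have hL1 : 1 ≤ L := by linarith
  have hL0 : 0 < L := by linarith
  obtain ⟨z, hz⟩ : ∃ z, z = ⌈L ^ B0⌉₊ := ⟨_, rfl⟩
  have hz1 : L ^ B0 ≤ z := by rw [hz]; exact Nat.le_ceil _
  have hz2 : (z : ℝ) ≤ L ^ (B0 + 1) := by
    have h5 : (z : ℝ) < L ^ B0 + 1 := by rw [hz]; exact Nat.ceil_lt_add_one (by positivity)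
    have h6 : 1 ≤ L ^ B0 := one_le_pow₀ hL1
    calc (z : ℝ) ≤ L ^ B0 + 1 := h5.le
      _ ≤ L ^ B0 * 2 := by linarith
      _ ≤ L ^ B0 * L := mul_le_mul_of_nonneg_left hL2 (by positivity)
      _ = L ^ (B0 + 1) := by rw [pow_succ]
  have hzK : z ^ K ≤ M := by
    have h5 : ((z ^ K : ℕ) : ℝ) ≤ M := by
      push_cast
      calc (z : ℝ) ^ K ≤ (L ^ (B0 + 1)) ^ K := pow_le_pow_left₀ (Nat.cast_nonneg _) hz2 K
        _ = L ^ ((B0 + 1) * K) := by rw [← pow_mul]
        _ ≤ √(M : ℝ) := hLs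
        _ ≤ M := by
          rw [Real.sqrt_le_left hM0.le]
          have : (1 : ℝ) ≤ M := by exact_mod_cast (by omega : 1 ≤ M)
          nlinarith
    exact_mod_cast h5
  obtain ⟨y, hy⟩ : ∃ y, y = Nat.findGreatest (fun y => y ^ K ≤ M) M := ⟨_, rfl⟩
  have hle : ∀ ℓ : ℕ, ℓ ^ K ≤ M → ℓ ≤ y := by
    intro ℓ hℓ
    rw [hy]
    exact Nat.le_findGreatest (P := fun y => y ^ K ≤ M) ((Nat.le_self_pow (by omega) ℓ).trans hℓ) hℓ
  have hzy : z ≤ y := hle z hzK
  have hyK : y ^ K ≤ M := by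
    rw [hy]
    exact Nat.findGreatest_spec (P := fun y => y ^ K ≤ M) (m := z) (le_trans (Nat.le_self_pow (by omega) z) hzK) hzK
  have hcard := hex z y hz1 hz2 hzy hyK
  obtain ⟨Exc, hExc⟩ : ∃ Exc, Exc = (Icc 1 M).filter (fun N : ℕ => ¬ (NoFixed (PArg.eF FF) (Polynomial.C (m : ℤ) * Polynomial.X) N →
      1 / (8 * (m : ℝ)) * M ≤ SHN.XCount (Polynomial.C (m : ℤ) * Polynomial.X) N M →
        |WP FF (Polynomial.C (m : ℤ) * Polynomial.X) N y M - TP FF (Polynomial.C (m : ℤ) * Polynomial.X) N z y M| ≤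
          1 / 2 * TP FF (Polynomial.C (m : ℤ) * Polynomial.X) N z y M)) := ⟨_, rfl⟩
  rw [← hExc] at hcard
  have hsub : (Ioc (M / 2) M).filter (fun n : ℕ => Admissible m n ∧ ¬ Rep K m n) ⊆ (range m).biUnion (fun r => Exc.image (fun N => N + r)) := by
    intro n hn
    rw [mem_filter, mem_Ioc] at hn
    obtain ⟨⟨hn1, hn2⟩, hadm, hrep⟩ := hn
    obtain ⟨r, hr, hcop, hodd⟩ := loc m n hm hadm
    rw [mem_biUnion]
    refine ⟨r, mem_range.2 hr, ?_⟩
    rw [mem_image]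
    refine ⟨n - r, ?_, by omega⟩
    rw [hExc, mem_filter, mem_Icc]
    refine ⟨⟨by omega, by omega⟩, ?_⟩
    intro hall
    apply hrep
    have hNF := noFixed m (n - r) hcop hodd
    have hX8 : (M : ℝ) / 8 ≤ ((n - r : ℕ) : ℝ) - m := by
      have h5 : M + 8 * m ≤ 8 * (n - r) := by omega
      have h6 : (M : ℝ) + 8 * m ≤ 8 * ((n - r : ℕ) : ℝ) := by exact_mod_cast h5
      linarith
    have hXl := XCount_low m (n - r) M hm (by omega) (by omega) hX8
    have hX0 : 0 < SHN.XCount (Polynomial.C (m : ℤ) * Polynomial.X) (n - r) M := by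
      have h5 : (0 : ℝ) < 1 / (8 * (m : ℝ)) * M := by positivity
      exact_mod_cast h5.trans_le hXl
    have h5 := hall hNF hXl
    have h6 := TP_pos FF (Polynomial.C (m : ℤ) * Polynomial.X) (n - r) z y M hzy hNF hX0
    have h7 := (abs_le.1 h5).1
    exact rep_of_pos K m n r y M hK hm hr (by omega) (fun ℓ hℓ => hle ℓ (hℓ.trans hn2)) (by linarith)
  have hc1 : ((Ioc (M / 2) M).filter (fun n : ℕ => Admissible m n ∧ ¬ Rep K m n)).card ≤ m * Exc.card := by
    refine (card_le_card hsub).trans (card_biUnion_le.trans ?_)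
    calc ∑ r ∈ range m, (Exc.image (fun N => N + r)).card ≤ ∑ _r ∈ range m, Exc.card := sum_le_sum fun r _ => card_image_le
      _ = m * Exc.card := by rw [sum_const, card_range, smul_eq_mul]
  have hc2 : (((Ioc (M / 2) M).filter (fun n : ℕ => Admissible m n ∧ ¬ Rep K m n)).card : ℝ) ≤ m * Exc.card := by exact_mod_cast hc1
  refine hc2.trans ?_
  calc (m : ℝ) * Exc.card ≤ m * (M / L ^ (U + 1)) := mul_le_mul_of_nonneg_left hcard (by linarith)
    _ = (m / L) * (M / L ^ U) := by rw [pow_succ]; field_simp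
    _ ≤ 1 * (M / L ^ U) := by
        apply mul_le_mul_of_nonneg_right _ (by positivity)
        rw [div_le_one hL0]
        linarith
    _ = _ := one_mul _

end Pool.Agent.Results.MP_4011c3_nt.AlmostAllAlmostPrime
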