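import Pool.Agent.H361R2.PA.First

set_option autoImplicit false
set_option maxHeartbeats 4000000

namespace Pool.Agent.Results.MP_4011c3_nt.FirstQuotients

open Classical in
theorem count_div (P : ℕ → Prop) (m : ℕ) (hm : 1 ≤ m) (t : ℕ) :
    Nat.count (fun t => P (t / m)) t ≤ m * (Nat.count P (t / m) + 1) := by
  rw [Nat.count_eq_card_filter_range, Nat.count_eq_card_filter_range]
  have h1 : (Finset.range t).filter (fun t => P (t / m)) ⊆
      ((((Finset.range (t / m)).filter P) ∪ {t / m}) ×ˢ Finset.range m).image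
        (fun x => m * x.1 + x.2) := by
    intro s hs
    rw [Finset.mem_filter, Finset.mem_range] at hs
    rw [Finset.mem_image]
    refine ⟨(s / m, s % m), ?_, Nat.div_add_mod s m⟩
    rw [Finset.mem_product, Finset.mem_union, Finset.mem_filter, Finset.mem_range,
      Finset.mem_singleton, Finset.mem_range]
    refine ⟨?_, Nat.mod_lt _ (by omega)⟩
    have h2 : s / m ≤ t / m := Nat.div_le_div_right hs.1.le
    rcases h2.lt_or_eq with h | h
    · left; exact ⟨h, hs.2⟩
    · right; exact h
  have h2 := (Finset.card_le_card h1).trans Finset.card_image_le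
  rw [Finset.card_product, Finset.card_range] at h2
  have h3 := Finset.card_union_le ((Finset.range (t / m)).filter P) {t / m}
  rw [Finset.card_singleton] at h3
  calc _ ≤ _ := h2
    _ ≤ (((Finset.range (t / m)).filter P).card + 1) * m := Nat.mul_le_mul_right _ h3
    _ = _ := Nat.mul_comm _ _

open Classical in
/-- for every property `P` of naturals, every `m ≥ 1` and all large `X` (not depending on `P`, `m`)
some `n ≡ 0 mod 6` in `(X, 2X]` is such that every prime `p < n` for which `⌊(n-p)/m⌋` has the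
property `P` is preceded by at least `(c/m) log X log log X - 1` elements with `P` -/
theorem result : ∃ c : ℝ, 0 < c ∧ ∃ X₀ : ℝ, ∀ X : ℝ, X₀ ≤ X → ∀ m : ℕ, 1 ≤ m → ∀ P : ℕ → Prop,
    ∃ n : ℕ, X < n ∧ (n : ℝ) ≤ 2 * X ∧ 6 ∣ n ∧
      ∀ p : ℕ, p.Prime → p < n → P ((n - p) / m) →
        c * (Real.log X * Real.log (Real.log X)) / m - 1 <
          ((Finset.range ((n - p) / m)).filter P).card := by
  obtain ⟨c, hc, X₀, h⟩ := Pool.Agent.H361R2.PA.first_elements 6 (by norm_num) 0
  refine ⟨c, hc, X₀, fun X hX m hm P => ?_⟩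
  obtain ⟨N, hN1, hN2, hN3, hN4⟩ := h X hX (fun t => P (t / m))
  have h2 := hN3 2 Nat.prime_two (by norm_num)
  have h3 := hN3 3 Nat.prime_three (by norm_num)
  push_cast at h2 h3
  refine ⟨N, hN1, hN2, by omega, ?_⟩
  intro p hp hpN hP
  have h4 := hN4 p (N - p) hp (by omega) hP
  have h5 := count_div P m hm (N - p)
  have h6 : ((Nat.count (fun t => P (t / m)) (N - p) : ℕ) : ℝ) ≤
      m * (Nat.count P ((N - p) / m) + 1) := by exact_mod_cast h5
  have hm0 : (0 : ℝ) < m := by exact_mod_cast hm
  have h7 : c * (Real.log X * Real.log (Real.log X)) / m < Nat.count P ((N - p) / m) + 1 := by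
    rw [div_lt_iff₀ hm0]
    linarith
  rw [Nat.count_eq_card_filter_range] at h7
  linarith

end Pool.Agent.Results.MP_4011c3_nt.FirstQuotients
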